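import Pool.Agent.helper70.LE.SpecN

/-!
# Row SCT of project LE (MP_baa4d7_al): the number of the stable characters
-/

set_option autoImplicit false

namespace Pool.Agent.LE

open Pool.Agent.helper58.DC Pool.Agent.DI Pool.Agent.GR Pool.Agent.OB Pool.Agent.DR Pool.Agent.FI Pool.Agent.FI3 Pool.Agent.FI4

open Classical in
theorem SCT_fs {G : Type} [Fintype G] (S : Set G) (g : G → ℂ) :
    ∑ᶠ x ∈ S, g x = ∑ x : G, if x ∈ S then g x else 0 := by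
  rw [finsum_eq_sum_of_fintype]
  exact Finset.sum_congr rfl fun x _ => finsum_eq_if

theorem SCT_nz {G : Type} [Group G] {L : Subgroup G} {a z : G} (ha : a ∈ nz L) (hz : z ∈ L) : a⁻¹ * z * a ∈ L := by
  have h1 : a⁻¹ ∈ nz L := (nz L).inv_mem ha
  have h2 := (Subgroup.mem_normalizer_iff.mp h1 z).mp hz
  rw [inv_inv] at h2
  exact h2

open Classical in
theorem SCT (hIDM : IDM_stmt) (hB2 : B2_stmt) (hFEQ : FEQ_stmt) : SCT_stmt := by
  intro G _ _ L S hS a ha hinv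
  have hfin : Fintype G := Fintype.ofFinite G
  obtain ⟨-, -, -, hid⟩ := hIDM G L S hS
  obtain ⟨hIf, hI⟩ := hB2 G L
  have hSf : S.Finite := hIf.subset hS
  have hn : (Nat.card L : ℂ) ≠ 0 := by exact_mod_cast Nat.card_pos.ne'
  -- the inner sum
  have h1 : ∀ z ∈ L, ∑ l : G, (if l ∈ L then eS L S (l * z * l⁻¹ * (a⁻¹ * z⁻¹ * a)) else 0) =
      Sf S z⁻¹ (a⁻¹ * z⁻¹ * a) := by
    intro z hz
    have h2 := hid z⁻¹ (L.inv_mem hz) _ (SCT_nz ha (L.inv_mem hz))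
    rw [SCT_fs] at h2
    rw [← h2, ← Equiv.sum_comp (Equiv.inv G)]
    refine Finset.sum_congr rfl fun w _ => ?_
    show (if w⁻¹ ∈ L then eS L S (w⁻¹ * z * w⁻¹⁻¹ * (a⁻¹ * z⁻¹ * a)) else 0) =
      if w ∈ (L : Set G) then eS L S (w⁻¹ * z⁻¹⁻¹ * w * (a⁻¹ * z⁻¹ * a)) else 0
    rw [inv_inv, inv_inv]
    by_cases h3 : w ∈ L
    · rw [if_pos (L.inv_mem h3), if_pos (show w ∈ (L : Set G) from h3)]
    · rw [if_neg (fun h4 => h3 (L.inv_mem_iff.mp h4)), if_neg (show w ∉ (L : Set G) from h3)]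
  -- the double sum
  have h5 : ∑ᶠ x ∈ {x : G | a⁻¹ * x ∈ L}, ∑ᶠ z ∈ {z : G | (1 : G)⁻¹ * z ∈ L}, eS L S (x * z * x⁻¹ * z⁻¹) =
      ∑ z : G, Sf S z⁻¹ (a⁻¹ * z⁻¹ * a) := by
    rw [SCT_fs, ← Equiv.sum_comp (Equiv.mulLeft a)]
    have h6 : ∀ l : G, (if (Equiv.mulLeft a) l ∈ {x : G | a⁻¹ * x ∈ L} then
        ∑ᶠ z ∈ {z : G | (1 : G)⁻¹ * z ∈ L}, eS L S ((Equiv.mulLeft a) l * z * ((Equiv.mulLeft a) l)⁻¹ * z⁻¹) else 0) =
        ∑ z : G, if l ∈ L ∧ z ∈ L then eS L S (l * z * l⁻¹ * (a⁻¹ * z⁻¹ * a)) else 0 := by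
      intro l
      have h7 : (Equiv.mulLeft a) l ∈ {x : G | a⁻¹ * x ∈ L} ↔ l ∈ L := by
        show a⁻¹ * (a * l) ∈ L ↔ l ∈ L
        rw [inv_mul_cancel_left]
      by_cases h8 : l ∈ L
      · rw [if_pos (h7.mpr h8), SCT_fs]
        refine Finset.sum_congr rfl fun z _ => ?_
        have h9 : z ∈ {z : G | (1 : G)⁻¹ * z ∈ L} ↔ z ∈ L := by
          show (1 : G)⁻¹ * z ∈ L ↔ z ∈ L
          rw [inv_one, one_mul]
        by_cases h10 : z ∈ L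
        · rw [if_pos (h9.mpr h10), if_pos ⟨h8, h10⟩, ← hinv (l * z * l⁻¹ * (a⁻¹ * z⁻¹ * a))]
          congr 1
          show a * l * z * (a * l)⁻¹ * z⁻¹ = _
          group
        · rw [if_neg (fun h11 => h10 (h9.mp h11)), if_neg (fun h11 => h10 h11.2)]
      · rw [if_neg (fun h9 => h8 (h7.mp h9))]
        exact (Finset.sum_eq_zero fun z _ => if_neg (fun h11 => h8 h11.1)).symm
    rw [Finset.sum_congr rfl fun l _ => h6 l, Finset.sum_comm]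
    refine Finset.sum_congr rfl fun z _ => ?_
    by_cases h7 : z ∈ L
    · rw [← h1 z h7]
      refine Finset.sum_congr rfl fun l _ => ?_
      by_cases h8 : l ∈ L
      · rw [if_pos ⟨h8, h7⟩, if_pos h8]
      · rw [if_neg (fun h9 => h8 h9.1), if_neg h8]
    · rw [Finset.sum_eq_zero fun l _ => if_neg (fun h9 => h7 h9.2)]
      unfold Sf
      refine (finsum_mem_eq_zero_of_forall_eq_zero fun ψ hψ => ?_).symm
      rw [(hI ψ (hS hψ)).2.2.2.1 z⁻¹ (fun h8 => h7 (L.inv_mem_iff.mp h8)), zero_mul]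
  -- orthogonality
  have h6 : ∀ ψ ∈ S, ∑ z : G, ψ z⁻¹ * ψ (a⁻¹ * z⁻¹ * a)⁻¹ = if cjF a ψ = ψ then (Nat.card L : ℂ) else 0 := by
    intro ψ hψ
    have hF := hFEQ G (⊥ : Ideal (integralClosure ℤ ℂ)) a 1 L L L ψ ψ ψ
    have h7 : cjS a L = L := hF.2.1.2.2.2.1.mpr ha
    have h8 : cjF a ψ ∈ IrrOn L := by
      have h9 := hF.2.2.2.1.mp (hS hψ)
      rw [h7] at h9
      exact h9
    have h9 := (hI _ h8).2.2.2.2 ψ (hS hψ)
    rw [finsum_eq_sum_of_fintype] at h9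
    have h10 : ∑ i, cjF a ψ i * ψ i⁻¹ = if cjF a ψ = ψ then (Nat.card L : ℂ) else 0 := by
      rw [h9]
      by_cases h11 : cjF a ψ = ψ
      · rw [if_pos h11, if_pos h11]
      · rw [if_neg h11, if_neg h11]
    refine Eq.trans ?_ h10
    refine Finset.sum_congr rfl fun z _ => ?_
    rw [cjF_apply, mul_comm]
    congr 2
    group
  have h7 : ∑ z : G, Sf S z⁻¹ (a⁻¹ * z⁻¹ * a) = (Nat.card L : ℂ) * ({ψ : G → ℂ | ψ ∈ S ∧ cjF a ψ = ψ}.ncard : ℂ) := by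
    have h8 : ∀ z : G, Sf S z⁻¹ (a⁻¹ * z⁻¹ * a) = ∑ ψ ∈ hSf.toFinset, ψ z⁻¹ * ψ (a⁻¹ * z⁻¹ * a)⁻¹ := by
      intro z
      unfold Sf
      exact finsum_mem_eq_finite_toFinset_sum _ hSf
    rw [Finset.sum_congr rfl fun z _ => h8 z, Finset.sum_comm,
      Finset.sum_congr rfl fun ψ hψ => h6 ψ (hSf.mem_toFinset.mp hψ), ← Finset.sum_filter, Finset.sum_const,
      nsmul_eq_mul, mul_comm]
    congr 2
    have h9 : {ψ : G → ℂ | ψ ∈ S ∧ cjF a ψ = ψ} = ((hSf.toFinset.filter (fun ψ => cjF a ψ = ψ) : Finset (G → ℂ)) : Set (G → ℂ)) := by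
      ext ψ
      simp
    rw [h9, Set.ncard_coe_finset]
  unfold ta
  rw [h5, h7]
  field_simp

end Pool.Agent.LE
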